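import Mathlib

namespace Pool.Agent.P.MP_af0fcb_gt

/-- `G(f, E)`: the group of self-homeomorphisms `A` of `E` with `f ∘ A = f`. -/
def symmGroup {E : Type} [TopologicalSpace E] (f : E → ℝ) : Subgroup (E ≃ₜ E) where
  carrier := {A | ∀ p, f (A p) = f p}
  mul_mem' := fun {_ B} hA hB p => (hA (B p)).trans (hB p)
  one_mem' := fun _ => rfl
  inv_mem' := fun {A} hA p => (hA (A.symm p)).symm.trans (congrArg f (A.apply_symm_apply p))

/-- `H` is a countable group isomorphic to `G(f, E)` for some continuous `f : E → ℝ`. -/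
def InClass (E : Type) [TopologicalSpace E] (H : Type) [Group H] : Prop :=
  Countable H ∧ ∃ f : E → ℝ, Continuous f ∧ Nonempty (H ≃* symmGroup f)

end Pool.Agent.P.MP_af0fcb_gt
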