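import Pool.Agent.P.MP_af0fcb_gt.Defs

namespace Pool.Agent.P.MP_af0fcb_gt

open Set Filter Topology

theorem mem_symmGroup {E : Type} [TopologicalSpace E] {f : E → ℝ} {A : E ≃ₜ E} :
    A ∈ symmGroup f ↔ ∀ p, f (A p) = f p := Iff.rfl

/-- `f` is constant on no interval -/
def NLC (f : ℝ → ℝ) : Prop := ∀ a b, a < b → ∃ x ∈ Icc a b, ∃ y ∈ Icc a b, f x ≠ f y

theorem nlc_of_countable_fibers {f : ℝ → ℝ} (h : ∀ c, {x | f x = c}.Countable) : NLC f := by
  intro a b hab
  by_contra hc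
  push Not at hc
  have h1 : (Icc a b).Countable := (h (f a)).mono fun x hx => hc x hx a (left_mem_Icc.2 hab.le)
  have h2 := Cardinal.le_aleph0_iff_set_countable.2 h1
  rw [Cardinal.mk_Icc_real hab] at h2
  exact absurd h2 (not_le.2 Cardinal.aleph0_lt_continuum)

theorem nlc_of_countable {f : ℝ → ℝ} (h : Countable (symmGroup f)) : NLC f := by
  intro a b hab
  by_contra hc
  push Not at hc
  set φ : ℝ → ℝ := fun x => max 0 (min (x - a) (b - x)) with hφ
  have φc : Continuous φ := by fun_prop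
  have φ0 : ∀ x, 0 ≤ φ x := fun x => le_max_left _ _
  have φl : ∀ x y, x ≤ y → φ x - φ y ≤ y - x := by
    intro x y hxy
    simp only [hφ, max_def, min_def]
    split_ifs <;> linarith
  have hex : ∀ s ∈ Icc (0 : ℝ) (1 / 2), ∃ A ∈ symmGroup f, ∀ x, A x = x + s * φ x := by
    intro s hs
    have hm : StrictMono fun x => x + s * φ x := by
      intro x y hxy
      have := mul_le_mul_of_nonneg_left (φl x y hxy.le) hs.1
      have := mul_le_mul_of_nonneg_right hs.2 (sub_pos.2 hxy).le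
      simp only
      nlinarith
    have hout : ∀ x, x ≤ a ∨ b ≤ x → x + s * φ x = x := by
      intro x hx
      have : φ x = 0 := by
        simp only [hφ]
        rcases hx with hx | hx
        · exact max_eq_left ((min_le_left _ _).trans (by linarith))
        · exact max_eq_left ((min_le_right _ _).trans (by linarith))
      rw [this, mul_zero, add_zero]
    have hsurj : Function.Surjective fun x => x + s * φ x := by
      intro y
      have hcont : Continuous fun x => x + s * φ x := by fun_prop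
      refine mem_range_of_exists_le_of_exists_ge hcont ⟨min y a, ?_⟩ ⟨max y b, ?_⟩
      · rw [hout _ (Or.inl (min_le_right _ _))]; exact min_le_left _ _
      · rw [hout _ (Or.inr (le_max_right _ _))]; exact le_max_left _ _
    refine ⟨(hm.orderIsoOfSurjective _ hsurj).toHomeomorph, fun p => ?_, fun x => rfl⟩
    change f (p + s * φ p) = f p
    by_cases hp : p ≤ a ∨ b ≤ p
    · rw [hout p hp]
    · push Not at hp
      refine hc _ ⟨?_, ?_⟩ _ ⟨hp.1.le, hp.2.le⟩
      · have := hm.monotone hp.1.le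
        simp only [hout a (Or.inl le_rfl)] at this
        exact this
      · have := hm.monotone hp.2.le
        simp only [hout b (Or.inr le_rfl)] at this
        exact this
  choose! A hA hA' using hex
  have hinj : Function.Injective fun s : Icc (0 : ℝ) (1 / 2) =>
      (⟨A s, hA s s.2⟩ : symmGroup f) := by
    intro s t hst
    have e : A s ((a + b) / 2) = A t ((a + b) / 2) := by
      rw [show A s = A t from congrArg Subtype.val hst]
    rw [hA' s s.2, hA' t t.2, add_right_inj] at e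
    have : 0 < φ ((a + b) / 2) := lt_max_of_lt_right (lt_min (by linarith) (by linarith))
    exact Subtype.ext (mul_right_cancel₀ this.ne' e)
  have h1 : (Icc (0 : ℝ) (1 / 2)).Countable := hinj.countable
  have h2 := Cardinal.le_aleph0_iff_set_countable.2 h1
  rw [Cardinal.mk_Icc_real (by norm_num)] at h2
  exact absurd h2 (not_le.2 Cardinal.aleph0_lt_continuum)

section

variable {f : ℝ → ℝ} (hc : Continuous f) (hn : NLC f)
include hc hn

theorem down {A : ℝ → ℝ} (hA : Monotone A) (hf : ∀ p, f (A p) = f p) {x : ℝ} (hx : A x < x)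
    (p : ℝ) : ∃ n, A^[n] x < p := by
  by_contra h
  push Not at h
  have hanti : Antitone fun n => A^[n] x := hA.antitone_iterate_of_map_le hx.le
  have hlim := tendsto_atTop_ciInf hanti ⟨p, by rintro _ ⟨n, rfl⟩; exact h n⟩
  set c := ⨅ n, A^[n] x
  have key : ∀ y ∈ Icc (A x) x, f y = f c := by
    intro y hy
    have h1 : Tendsto (fun n => A^[n] y) atTop (𝓝 c) :=
      tendsto_of_tendsto_of_tendsto_of_le_of_le ((tendsto_add_atTop_iff_nat 1).2 hlim) hlim
        (fun n => (hA.iterate n) hy.1) fun n => (hA.iterate n) hy.2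
    have h2 := (hc.tendsto c).comp h1
    have h3 : (f ∘ fun n => A^[n] y) = fun _ => f y := by
      funext n
      induction n with
      | zero => rfl
      | succ n ih => rw [← ih]; simp only [Function.comp, Function.iterate_succ_apply', hf]
    rw [h3] at h2
    exact tendsto_nhds_unique tendsto_const_nhds h2
  obtain ⟨u, hu, v, hv, huv⟩ := hn _ _ hx
  exact huv ((key u hu).trans (key v hv).symm)

theorem up {A : ℝ → ℝ} (hA : Monotone A) (hf : ∀ p, f (A p) = f p) {x : ℝ} (hx : x < A x)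
    (p : ℝ) : ∃ n, p < A^[n] x := by
  by_contra h
  push Not at h
  have hmono : Monotone fun n => A^[n] x := hA.monotone_iterate_of_le_map hx.le
  have hlim := tendsto_atTop_ciSup hmono ⟨p, by rintro _ ⟨n, rfl⟩; exact h n⟩
  set c := ⨆ n, A^[n] x
  have key : ∀ y ∈ Icc x (A x), f y = f c := by
    intro y hy
    have h1 : Tendsto (fun n => A^[n] y) atTop (𝓝 c) :=
      tendsto_of_tendsto_of_tendsto_of_le_of_le hlim ((tendsto_add_atTop_iff_nat 1).2 hlim)
        (fun n => (hA.iterate n) hy.1) fun n => (hA.iterate n) hy.2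
    have h2 := (hc.tendsto c).comp h1
    have h3 : (f ∘ fun n => A^[n] y) = fun _ => f y := by
      funext n
      induction n with
      | zero => rfl
      | succ n ih => rw [← ih]; simp only [Function.comp, Function.iterate_succ_apply', hf]
    rw [h3] at h2
    exact tendsto_nhds_unique tendsto_const_nhds h2
  obtain ⟨u, hu, v, hv, huv⟩ := hn _ _ hx
  exact huv ((key u hu).trans (key v hv).symm)

omit hc hn in
theorem inv_mono {A : ℝ ≃ₜ ℝ} (h : StrictMono A) : StrictMono (A⁻¹ : ℝ ≃ₜ ℝ) := by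
  intro x y hxy
  rw [← h.lt_iff_lt]
  simpa [Homeomorph.inv_apply] using hxy

theorem eq_one_of_fixed {A : ℝ ≃ₜ ℝ} (hA : A ∈ symmGroup f) (hm : StrictMono A) {p : ℝ}
    (hp : A p = p) : A = 1 := by
  have h1 : ∀ B : ℝ ≃ₜ ℝ, B ∈ symmGroup f → StrictMono B → B p = p → ∀ x,
      (p ≤ x → ¬ B x < x) ∧ (x ≤ p → ¬ x < B x) := by
    intro B hB hBm hBp x
    have e : ∀ n, B^[n] p = p := fun n => Function.iterate_fixed hBp n
    constructor
    · intro hx hlt
      obtain ⟨n, h⟩ := down hc hn hBm.monotone hB hlt p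
      exact absurd ((e n).ge.trans (hBm.monotone.iterate n hx)) (not_le.2 h)
    · intro hx hlt
      obtain ⟨n, h⟩ := up hc hn hBm.monotone hB hlt p
      exact absurd ((hBm.monotone.iterate n hx).trans (e n).le) (not_le.2 h)
  have hp' : (A⁻¹ : ℝ ≃ₜ ℝ) p = p := by
    rw [Homeomorph.inv_apply, Homeomorph.symm_apply_eq, hp]
  ext x
  have a := h1 A hA hm hp x
  have b := h1 A⁻¹ ((symmGroup f).inv_mem hA) (inv_mono hm) hp' x
  have e : A ((A⁻¹ : ℝ ≃ₜ ℝ) x) = x := A.apply_symm_apply x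
  rw [← hm.lt_iff_lt (b := x), ← hm.lt_iff_lt (a := x) (b := (A⁻¹ : ℝ ≃ₜ ℝ) x), e] at b
  change A x = x
  rcases le_total p x with h | h
  · exact le_antisymm (not_lt.1 (b.1 h)) (not_lt.1 (a.1 h))
  · exact le_antisymm (not_lt.1 (a.2 h)) (not_lt.1 (b.2 h))

theorem lt_apply {A : ℝ ≃ₜ ℝ} (hA : A ∈ symmGroup f) (hm : StrictMono A) (h0 : 0 < A 0) (x : ℝ) :
    x < A x := by
  by_contra h
  have hcont : Continuous fun y => A y - y := by fun_prop
  obtain ⟨p, hp⟩ := mem_range_of_exists_le_of_exists_ge (c := 0) hcont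
    ⟨x, by linarith [not_lt.1 h]⟩ ⟨0, by linarith⟩
  rw [eq_one_of_fixed hc hn hA hm (sub_eq_zero.1 hp)] at h0
  exact lt_irrefl _ h0

omit hc hn in
theorem pow_apply (A : ℝ ≃ₜ ℝ) (n : ℕ) (x : ℝ) : (A ^ n) x = A^[n] x := by
  induction n with
  | zero => rfl
  | succ n ih => rw [pow_succ', Homeomorph.mul_apply, ih, Function.iterate_succ_apply']

omit hc hn in
theorem zpow_mono {A : ℝ ≃ₜ ℝ} (hm : StrictMono A) (j : ℤ) : StrictMono (A ^ j : ℝ ≃ₜ ℝ) := by
  have h : ∀ n : ℕ, StrictMono (A ^ n : ℝ ≃ₜ ℝ) := fun n x y hxy => by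
    rw [pow_apply, pow_apply]; exact hm.iterate n hxy
  cases j with
  | ofNat n => simpa using h n
  | negSucc n => rw [zpow_negSucc]; exact inv_mono (h _)

theorem orbit_mono {A : ℝ ≃ₜ ℝ} (hA : A ∈ symmGroup f) (hm : StrictMono A) (h0 : 0 < A 0) :
    StrictMono fun j : ℤ => (A ^ j) 0 :=
  strictMono_int_of_lt_succ fun j => by
    rw [add_comm, zpow_one_add, Homeomorph.mul_apply]
    exact lt_apply hc hn hA hm h0 _

theorem fundamental {A : ℝ ≃ₜ ℝ} (hA : A ∈ symmGroup f) (hm : StrictMono A) (h0 : 0 < A 0)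
    (x : ℝ) : ∃ j : ℤ, 0 ≤ (A ^ j) x ∧ (A ^ j) x < A 0 := by
  have ho := orbit_mono hc hn hA hm h0
  obtain ⟨n, h1⟩ := up hc hn hm.monotone hA h0 x
  obtain ⟨m, h2⟩ := down hc hn (inv_mono hm).monotone ((symmGroup f).inv_mem hA) (x := 0)
    (by
      rw [← hm.lt_iff_lt]
      exact (A.apply_symm_apply 0).trans_lt h0) x
  rw [← pow_apply, ← zpow_natCast] at h1
  rw [← pow_apply, inv_pow, ← zpow_natCast, ← zpow_neg] at h2
  obtain ⟨j, hj, hmax⟩ := Int.exists_greatest_of_bdd (P := fun j => (A ^ j) 0 ≤ x)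
    ⟨n, fun z hz => (ho.lt_iff_lt.1 (hz.trans_lt h1)).le⟩ ⟨_, h2.le⟩
  have hlt : x < (A ^ (j + 1)) 0 := by
    by_contra h
    have := hmax _ (not_lt.1 h)
    omega
  refine ⟨-j, ?_, ?_⟩
  · have := (zpow_mono hm (-j)).monotone hj
    rwa [← Homeomorph.mul_apply, ← zpow_add, neg_add_cancel, zpow_zero] at this
  · have := zpow_mono hm (-j) hlt
    rwa [← Homeomorph.mul_apply, ← zpow_add, neg_add_cancel_left, zpow_one] at this

theorem exists_min (hP : ∃ g ∈ symmGroup f, StrictMono g ∧ 0 < g 0) :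
    ∃ g ∈ symmGroup f, StrictMono g ∧ 0 < g 0 ∧
      ∀ k ∈ symmGroup f, StrictMono k → 0 < k 0 → g 0 ≤ k 0 := by
  by_contra h
  push Not at h
  set S := {t : ℝ | ∃ g ∈ symmGroup f, StrictMono g ∧ 0 < g 0 ∧ g 0 = t} with hS
  have hne : S.Nonempty := by
    obtain ⟨g, h1, h2, h3⟩ := hP
    exact ⟨_, g, h1, h2, h3, rfl⟩
  have hbdd : BddBelow S := ⟨0, by rintro _ ⟨g, -, -, h3, rfl⟩; exact h3.le⟩
  obtain ⟨u, -, v, -, huv⟩ := hn 0 1 one_pos
  have hε : 0 < |f u - f v| / 2 := half_pos (abs_pos.2 (sub_ne_zero.2 huv))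
  obtain ⟨δ, hδ, hcont⟩ := Metric.continuous_iff.1 hc (sInf S) _ hε
  obtain ⟨_, ⟨g, g1, g2, g3, rfl⟩, hg⟩ := exists_lt_of_csInf_lt hne (lt_add_of_pos_right _ hδ)
  obtain ⟨k, k1, k2, k3, hk⟩ := h g g1 g2 g3
  have hk' : sInf S ≤ k 0 := csInf_le hbdd ⟨k, k1, k2, k3, rfl⟩
  have m1 : k⁻¹ * g ∈ symmGroup f := (symmGroup f).mul_mem ((symmGroup f).inv_mem k1) g1
  have m2 : StrictMono (k⁻¹ * g : ℝ ≃ₜ ℝ) := (inv_mono k2).comp g2
  have e : k ((k⁻¹ * g : ℝ ≃ₜ ℝ) 0) = g 0 := k.apply_symm_apply _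
  have m3 : 0 < (k⁻¹ * g : ℝ ≃ₜ ℝ) 0 := by rw [← k2.lt_iff_lt, e]; exact hk
  have key : ∀ w, |f w - f (sInf S)| < |f u - f v| / 2 := by
    intro w
    obtain ⟨j, j1, j2⟩ := fundamental hc hn m1 m2 m3 w
    have a1 := k2.monotone j1
    have a2 := k2 j2
    rw [e] at a2
    have := hcont (k (((k⁻¹ * g) ^ j) w)) (by
      rw [Real.dist_eq, abs_lt]
      constructor <;> linarith)
    rwa [k1, (symmGroup f).zpow_mem m1 j, Real.dist_eq] at this
  have h1 := key u
  have h2 := key v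
  have h3 := abs_sub_le (f u) (f (sInf S)) (f v)
  rw [abs_sub_comm (f (sInf S))] at h3
  linarith

theorem exists_gen (hP : ∃ g ∈ symmGroup f, StrictMono g ∧ 0 < g 0) :
    ∃ g ∈ symmGroup f, StrictMono g ∧ (Function.Injective fun j : ℤ => g ^ j) ∧
      ∀ k ∈ symmGroup f, StrictMono k → ∃ j : ℤ, g ^ j = k := by
  obtain ⟨g, g1, g2, g3, hmin⟩ := exists_min hc hn hP
  refine ⟨g, g1, g2, fun i j hij => (orbit_mono hc hn g1 g2 g3).injective ?_, fun k k1 k2 => ?_⟩
  · simp only at hij ⊢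
    rw [hij]
  obtain ⟨j, j1, j2⟩ := fundamental hc hn g1 g2 g3 (k 0)
  have m1 : g ^ j * k ∈ symmGroup f := (symmGroup f).mul_mem ((symmGroup f).zpow_mem g1 j) k1
  have m2 : StrictMono (g ^ j * k : ℝ ≃ₜ ℝ) := (zpow_mono g2 j).comp k2
  have m3 : (g ^ j * k : ℝ ≃ₜ ℝ) 0 = 0 := by
    by_contra h
    exact absurd (hmin _ m1 m2 (lt_of_le_of_ne j1 (Ne.symm h))) (not_le.2 j2)
  refine ⟨-j, ?_⟩
  rw [zpow_neg]
  exact inv_eq_of_mul_eq_one_right (eq_one_of_fixed hc hn m1 m2 m3)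

theorem eq_one_of_not (hP : ¬ ∃ g ∈ symmGroup f, StrictMono g ∧ 0 < g 0) {g : ℝ ≃ₜ ℝ}
    (g1 : g ∈ symmGroup f) (g2 : StrictMono g) : g = 1 := by
  rcases lt_trichotomy (g 0) 0 with h | h | h
  · refine absurd ⟨g⁻¹, (symmGroup f).inv_mem g1, inv_mono g2, ?_⟩ hP
    rw [← g2.lt_iff_lt]
    exact h.trans_eq (g.apply_symm_apply 0).symm
  · exact eq_one_of_fixed hc hn g1 g2 h
  · exact absurd ⟨g, g1, g2, h⟩ hP

theorem anti_sq {r : ℝ ≃ₜ ℝ} (r1 : r ∈ symmGroup f) (r2 : StrictAnti r) : r * r = 1 := by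
  have hcont : Continuous fun y => r y - y := by fun_prop
  obtain ⟨p, hp⟩ := mem_range_of_exists_le_of_exists_ge (c := 0) hcont
    ⟨max 0 (r 0), by
      have := r2.antitone (le_max_left 0 (r 0))
      have := le_max_right 0 (r 0)
      linarith⟩
    ⟨min 0 (r 0), by
      have := r2.antitone (min_le_left 0 (r 0))
      have := min_le_right 0 (r 0)
      linarith⟩
  have hp' : r p = p := sub_eq_zero.1 hp
  exact eq_one_of_fixed hc hn ((symmGroup f).mul_mem r1 r1) (r2.comp r2) (p := p)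
    (by rw [Homeomorph.mul_apply, hp', hp'])

omit hc hn in
theorem mono_or_anti (A : ℝ ≃ₜ ℝ) : StrictMono A ∨ StrictAnti A :=
  A.continuous.strictMono_of_inj A.injective

omit hc hn in
theorem not_mono_anti {A : ℝ ≃ₜ ℝ} (h1 : StrictMono A) (h2 : StrictAnti A) : False :=
  lt_asymm (h1 zero_lt_one) (h2 zero_lt_one)

theorem case_trivial (hP : ¬ ∃ g ∈ symmGroup f, StrictMono g ∧ 0 < g 0)
    (hR : ¬ ∃ r ∈ symmGroup f, StrictAnti r) : Subsingleton (symmGroup f) := by
  have : ∀ g : symmGroup f, g = 1 := fun g => Subtype.ext (eq_one_of_not hc hn hP g.2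
    ((mono_or_anti g.1).resolve_right fun h => hR ⟨g, g.2, h⟩))
  exact ⟨fun a b => (this a).trans (this b).symm⟩

theorem case_two (hP : ¬ ∃ g ∈ symmGroup f, StrictMono g ∧ 0 < g 0)
    (hR : ∃ r ∈ symmGroup f, StrictAnti r) :
    Nonempty (symmGroup f ≃* Multiplicative (ZMod 2)) := by
  obtain ⟨r, r1, r2⟩ := hR
  have hcard : Nat.card (symmGroup f) = 2 := by
    rw [Nat.card_eq_two_iff' (1 : symmGroup f)]
    refine ⟨⟨r, r1⟩, fun h => ?_, fun g hg => ?_⟩
    · have : r = 1 := congrArg Subtype.val h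
      rw [this] at r2
      exact not_mono_anti (A := 1) strictMono_id r2
    · rcases mono_or_anti g.1 with h | h
      · exact absurd (Subtype.ext (eq_one_of_not hc hn hP g.2 h)) hg
      · have e := eq_one_of_not hc hn hP ((symmGroup f).mul_mem r1 g.2) (r2.comp h)
        exact Subtype.ext (mul_left_cancel (e.trans (anti_sq hc hn r1 r2).symm))
  exact ⟨mulEquivOfPrimeCardEq (p := 2) hcard (by simp)⟩

theorem case_int (hP : ∃ g ∈ symmGroup f, StrictMono g ∧ 0 < g 0)
    (hR : ¬ ∃ r ∈ symmGroup f, StrictAnti r) :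
    Nonempty (symmGroup f ≃* Multiplicative ℤ) := by
  obtain ⟨g, g1, -, g3, g4⟩ := exists_gen hc hn hP
  refine ⟨(MulEquiv.ofBijective (zpowersHom (symmGroup f) ⟨g, g1⟩) ⟨?_, ?_⟩).symm⟩
  · intro i j hij
    exact g3 (congrArg Subtype.val hij)
  · intro k
    obtain ⟨j, hj⟩ := g4 k k.2 ((mono_or_anti k.1).resolve_right fun h => hR ⟨k, k.2, h⟩)
    exact ⟨Multiplicative.ofAdd j, Subtype.ext hj⟩

omit hc hn in
theorem dihedral_iso {G : Type} [Group G] (g r : G) (h1 : r * r = 1) (h2 : r * g * (r * g) = 1)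
    (h3 : Function.Injective fun j : ℤ => g ^ j) (h4 : ∀ j : ℤ, g ^ j ≠ r)
    (h5 : ∀ k : G, (∃ j : ℤ, g ^ j = k) ∨ ∃ j : ℤ, r * g ^ j = k) :
    Nonempty (G ≃* DihedralGroup 0) := by
  have hr : r⁻¹ = r := inv_eq_of_mul_eq_one_right h1
  have hs : SemiconjBy r g⁻¹ g := by
    unfold SemiconjBy
    rw [← hr, ← mul_inv_rev, hr, inv_eq_iff_mul_eq_one]
    calc g * r * (g * r) = r * r * g * r * (g * r) := by rw [h1, one_mul]
      _ = r * (r * g * (r * g)) * r := by simp only [mul_assoc]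
      _ = 1 := by rw [h2, mul_one, h1]
  have hz : ∀ i : ℤ, g ^ i * r = r * g ^ (-i) := fun i => by
    have := (hs.zpow_right i).eq
    rw [inv_zpow'] at this
    exact this.symm
  let φ : DihedralGroup 0 → G := fun x => match x with
    | .r i => g ^ (show ℤ from i)
    | .sr i => r * g ^ (show ℤ from i)
  have hφ : ∀ a b, φ (a * b) = φ a * φ b := by
    rintro (i | i) (j | j)
    · exact zpow_add g i j
    · change r * g ^ ((show ℤ from j) - (show ℤ from i)) = g ^ (show ℤ from i) * (r * g ^ _)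
      rw [← mul_assoc, hz, mul_assoc, ← zpow_add, neg_add_eq_sub]
    · change r * g ^ ((show ℤ from i) + (show ℤ from j)) = r * g ^ (show ℤ from i) * g ^ _
      rw [mul_assoc, ← zpow_add]
    · change g ^ ((show ℤ from j) - (show ℤ from i)) = r * g ^ (show ℤ from i) * (r * g ^ _)
      rw [mul_assoc, ← mul_assoc _ r, hz, ← mul_assoc, ← mul_assoc, h1, one_mul, ← zpow_add,
        neg_add_eq_sub]
  refine ⟨(MulEquiv.ofBijective (MonoidHom.mk' φ hφ) ⟨?_, ?_⟩).symm⟩
  · rintro (i | i) (j | j) h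
    · exact congrArg DihedralGroup.r (h3 h)
    · have h' : g ^ (show ℤ from i) = r * g ^ (show ℤ from j) := h
      exact absurd (by rw [zpow_sub, h', mul_inv_cancel_right])
        (h4 ((show ℤ from i) - (show ℤ from j)))
    · have h' : r * g ^ (show ℤ from i) = g ^ (show ℤ from j) := h
      exact absurd (by rw [zpow_sub, ← h', mul_inv_cancel_right])
        (h4 ((show ℤ from j) - (show ℤ from i)))
    · have h' : r * g ^ (show ℤ from i) = r * g ^ (show ℤ from j) := h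
      exact congrArg DihedralGroup.sr (h3 (mul_left_cancel h'))
  · intro k
    rcases h5 k with ⟨j, hj⟩ | ⟨j, hj⟩
    · exact ⟨.r j, hj⟩
    · exact ⟨.sr j, hj⟩

theorem case_dihedral (hP : ∃ g ∈ symmGroup f, StrictMono g ∧ 0 < g 0)
    (hR : ∃ r ∈ symmGroup f, StrictAnti r) : Nonempty (symmGroup f ≃* DihedralGroup 0) := by
  obtain ⟨g, g1, g2, g3, g4⟩ := exists_gen hc hn hP
  obtain ⟨r, r1, r2⟩ := hR
  have e := anti_sq hc hn r1 r2
  refine dihedral_iso ⟨g, g1⟩ ⟨r, r1⟩ (Subtype.ext e)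
    (Subtype.ext (anti_sq hc hn ((symmGroup f).mul_mem r1 g1) (r2.comp_strictMono g2)))
    (fun i j hij => g3 (congrArg Subtype.val hij)) (fun j hj => ?_) fun k => ?_
  · have : g ^ j = r := congrArg Subtype.val hj
    exact not_mono_anti (this ▸ zpow_mono g2 j) r2
  · rcases mono_or_anti k.1 with h | h
    · obtain ⟨j, hj⟩ := g4 k k.2 h
      exact Or.inl ⟨j, Subtype.ext hj⟩
    · obtain ⟨j, hj⟩ := g4 _ ((symmGroup f).mul_mem r1 k.2) (r2.comp h)
      refine Or.inr ⟨j, Subtype.ext ?_⟩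
      change r * g ^ j = k
      rw [hj, ← mul_assoc, e, one_mul]

end

end Pool.Agent.P.MP_af0fcb_gt
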