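import Pool.Agent.P.MP_af0fcb_gt.Line

namespace Pool.Agent.P.MP_af0fcb_gt

open Set

theorem ex_trivial : ∃ f : ℝ → ℝ, Continuous f ∧ Subsingleton (symmGroup f) :=
  ⟨id, continuous_id, ⟨fun a b => Subtype.ext (Homeomorph.ext fun p => (a.2 p).trans (b.2 p).symm)⟩⟩

theorem ex_two : ∃ f : ℝ → ℝ, Continuous f ∧
    Nonempty (symmGroup f ≃* Multiplicative (ZMod 2)) := by
  refine ⟨fun x => |x|, continuous_abs, case_two continuous_abs (nlc_of_countable_fibers fun c => ?_)
    ?_ ⟨Homeomorph.neg ℝ, fun p => abs_neg p, fun _ _ h => neg_lt_neg h⟩⟩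
  · refine (((Set.finite_singleton (-c)).insert c).subset fun x hx => ?_).countable
    rcases abs_choice x with h | h
    · exact Or.inl (h.symm.trans hx)
    · exact Or.inr (neg_eq_iff_eq_neg.1 (h.symm.trans hx))
  · rintro ⟨g, g1, -, g3⟩
    have := g1 0
    simp only [abs_zero, abs_eq_zero] at this
    exact g3.ne' this

theorem ex_dihedral : ∃ f : ℝ → ℝ, Continuous f ∧
    Nonempty (symmGroup f ≃* DihedralGroup 0) := by
  refine ⟨Real.cos, Real.continuous_cos, case_dihedral Real.continuous_cos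
    (nlc_of_countable_fibers fun c => ?_)
    ⟨Homeomorph.addRight (2 * Real.pi), fun p => Real.cos_add_two_pi p,
      strictMono_id.add_const _, by simp [Real.pi_pos]⟩
    ⟨Homeomorph.neg ℝ, fun p => Real.cos_neg p, fun _ _ h => neg_lt_neg h⟩⟩
  rcases {x | Real.cos x = c}.eq_empty_or_nonempty with h | ⟨y, hy⟩
  · rw [h]; exact countable_empty
  refine ((countable_range fun k : ℤ => 2 * k * Real.pi + y).union
    (countable_range fun k : ℤ => 2 * k * Real.pi - y)).mono fun x hx => ?_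
  obtain ⟨k, hk | hk⟩ := Real.cos_eq_cos_iff.1 (hy.trans (Eq.symm hx))
  · exact Or.inl ⟨k, hk.symm⟩
  · exact Or.inr ⟨k, hk.symm⟩

/-- one period of the asymmetric zigzag -/
noncomputable def zig (t : ℝ) : ℝ := min (12 * t) (max (5 - 8 * t) (min (4 * t - 1) (8 - 8 * t)))

theorem ex_int : ∃ f : ℝ → ℝ, Continuous f ∧ Nonempty (symmGroup f ≃* Multiplicative ℤ) := by
  have hc : Continuous (zig ∘ Int.fract) :=
    ContinuousOn.comp_fract'' (by unfold zig; fun_prop) (by unfold zig; norm_num)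
  refine ⟨zig ∘ Int.fract, hc, case_int hc (nlc_of_countable_fibers fun c => ?_)
    ⟨Homeomorph.addRight 1, fun p => by simp, strictMono_id.add_const _, by simp⟩ ?_⟩
  · refine (Set.Countable.mono (s₂ := ⋃ t ∈ ({c / 12, (5 - c) / 8, (c + 1) / 4, (8 - c) / 8} : Set ℝ),
      range fun k : ℤ => (k : ℝ) + t) (fun x hx => ?_)
      (Set.Countable.biUnion (Set.toFinite _).countable fun t _ => countable_range _))
    refine mem_biUnion (x := Int.fract x) ?_ ⟨⌊x⌋, Int.floor_add_fract x⟩
    have h : zig (Int.fract x) = c := hx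
    simp only [zig, min_def, max_def] at h
    simp only [mem_insert_iff, mem_singleton_iff]
    split_ifs at h
    all_goals first
      | exact Or.inl (by linarith)
      | exact Or.inr (Or.inl (by linarith))
      | exact Or.inr (Or.inr (Or.inl (by linarith)))
      | exact Or.inr (Or.inr (Or.inr (by linarith)))
  · rintro ⟨r, r1, r2⟩
    have z0 : ∀ t, 0 ≤ t → t < 1 → zig t = 0 → t = 0 := by
      intro t t0 t1 h
      simp only [zig, min_def, max_def] at h
      split_ifs at h <;> linarith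
    have z3 : ∀ t, 0 ≤ t → t < 1 → zig t = 3 → t = 1 / 4 := by
      intro t t0 t1 h
      simp only [zig, min_def, max_def] at h
      split_ifs at h <;> linarith
    have z1 : ∀ t, 0 ≤ t → t ≤ 1 / 4 → zig (Int.fract t) = 12 * t := by
      intro t t0 t1
      rw [Int.fract_eq_self.2 ⟨t0, by linarith⟩]
      exact min_eq_left (le_max_of_le_left (by linarith))
    have e0 : Int.fract (r 0) = 0 := z0 _ (Int.fract_nonneg _) (Int.fract_lt_one _)
      ((r1 0).trans ((z1 0 le_rfl (by norm_num)).trans (by norm_num)))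
    have e1 : Int.fract (r (1 / 4)) = 1 / 4 := z3 _ (Int.fract_nonneg _) (Int.fract_lt_one _)
      ((r1 (1 / 4)).trans ((z1 (1 / 4) (by norm_num) le_rfl).trans (by norm_num)))
    have a0 := Int.floor_add_fract (r 0)
    have a1 := Int.floor_add_fract (r (1 / 4))
    have lt : r (1 / 4) < r 0 := r2 (by norm_num)
    rw [e0, add_zero] at a0
    rw [e1] at a1
    have lt2 : ⌊r (1 / 4)⌋ < ⌊r 0⌋ := by
      have : (⌊r (1 / 4)⌋ : ℝ) < ⌊r 0⌋ := by linarith
      exact_mod_cast this
    have lt3 : (⌊r (1 / 4)⌋ : ℝ) + 1 ≤ ⌊r 0⌋ := by exact_mod_cast lt2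
    have key : ∀ s : ℝ, 1 / 4 ≤ s → s < 1 → zig s = 1 → r (1 / 12) = ⌊r 0⌋ - 1 + s := by
      intro s s0 s1 hs
      obtain ⟨y, hy⟩ := r.surjective (⌊r 0⌋ - 1 + s)
      have y0 : 0 ≤ y := by rw [← r2.le_iff_ge, hy]; linarith
      have y1 : y ≤ 1 / 4 := by rw [← r2.le_iff_ge, hy]; linarith
      have h := r1 y
      have hf : Int.fract ((⌊r 0⌋ : ℝ) - 1 + s) = s := by
        rw [show (⌊r 0⌋ : ℝ) - 1 = ((⌊r 0⌋ - 1 : ℤ) : ℝ) by push_cast; ring, Int.fract_intCast_add,
          Int.fract_eq_self.2 ⟨by linarith, s1⟩]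
      simp only [Function.comp] at h
      rw [hy, hf, hs, z1 y y0 y1] at h
      rw [← hy, show y = 1 / 12 by linarith]
    have k1 := key (1 / 2) (by norm_num) (by norm_num) (by unfold zig; norm_num)
    have k2 := key (7 / 8) (by norm_num) (by norm_num) (by unfold zig; norm_num)
    linarith

theorem line_main (H : Type) [Group H] : InClass ℝ H ↔
    Subsingleton H ∨ Nonempty (H ≃* Multiplicative (ZMod 2)) ∨
      Nonempty (H ≃* Multiplicative ℤ) ∨ Nonempty (H ≃* DihedralGroup 0) := by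
  constructor
  · rintro ⟨hH, f, hc, ⟨e⟩⟩
    have hn : NLC f := nlc_of_countable (e.symm.injective.countable)
    by_cases hP : ∃ g ∈ symmGroup f, StrictMono g ∧ 0 < g 0 <;>
      by_cases hR : ∃ r ∈ symmGroup f, StrictAnti r
    · exact Or.inr (Or.inr (Or.inr ((case_dihedral hc hn hP hR).map e.trans)))
    · exact Or.inr (Or.inr (Or.inl ((case_int hc hn hP hR).map e.trans)))
    · exact Or.inr (Or.inl ((case_two hc hn hP hR).map e.trans))
    · have := case_trivial hc hn hP hR
      exact Or.inl e.injective.subsingleton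
  · rintro (h | ⟨⟨e⟩⟩ | ⟨⟨e⟩⟩ | ⟨⟨e⟩⟩)
    · obtain ⟨f, hc, hf⟩ := ex_trivial
      have : Unique H := uniqueOfSubsingleton 1
      have : Unique (symmGroup f) := uniqueOfSubsingleton 1
      exact ⟨inferInstance, f, hc, ⟨MulEquiv.ofUnique⟩⟩
    · obtain ⟨f, hc, ⟨k⟩⟩ := ex_two
      exact ⟨e.injective.countable, f, hc, ⟨e.trans k.symm⟩⟩
    · obtain ⟨f, hc, ⟨k⟩⟩ := ex_int
      have : Countable (Multiplicative ℤ) := inferInstanceAs (Countable ℤ)
      exact ⟨e.injective.countable, f, hc, ⟨e.trans k.symm⟩⟩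
    · obtain ⟨f, hc, ⟨k⟩⟩ := ex_dihedral
      have : Countable (ZMod 0) := inferInstanceAs (Countable ℤ)
      have : Countable (DihedralGroup 0) := (DihedralGroup.equivSum (n := 0)).injective.countable
      exact ⟨e.injective.countable, f, hc, ⟨e.trans k.symm⟩⟩

end Pool.Agent.P.MP_af0fcb_gt
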